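import Mathlib
import Pool.Agent.H964.LF.Stm

/-!
# Project LF: moving the pin
-/

set_option autoImplicit false

namespace Pool.Agent.H264.LF

open MeasureTheory Pool.Agent.H964.LF
open scoped ENNReal

section lipm

variable {d n : ℕ}

theorem lip_add {ψ : Tor d n → ℝ} (c : ℝ) : Lip (fun v => ψ v + c) ↔ Lip ψ := by
  unfold Lip
  simp only [add_sub_add_right_eq_sub]

theorem lip_meas (d n : ℕ) : MeasurableSet {ψ : Tor d n → ℝ | Lip ψ} := by
  have h1 : {ψ : Tor d n → ℝ | Lip ψ} =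
      ⋂ (x : Tor d n) (i : Fin d), {ψ | |ψ (x + Pi.single i 1) - ψ x| ≤ 1} := by
    ext ψ
    simp only [Set.mem_ofPred_eq, Set.mem_iInter]
    rfl
  rw [h1]
  refine MeasurableSet.iInter fun x => MeasurableSet.iInter fun i => ?_
  refine (isClosed_le ?_ continuous_const).measurableSet
  fun_prop

/-- The window of length one at `p` starting at `a`. -/
def Wi (S : Set (Tor d n → ℝ)) (p : Tor d n) (a : ℝ) : Set (Tor d n → ℝ) :=
  {ψ | ψ ∈ S ∧ a ≤ ψ p ∧ ψ p < a + 1}

theorem Wi_meas {S : Set (Tor d n → ℝ)} (hS : MeasurableSet S) (p : Tor d n) (a : ℝ) :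
    MeasurableSet (Wi S p a) := by
  have h1 : Wi S p a = S ∩ {ψ | a ≤ ψ p} ∩ {ψ | ψ p < a + 1} := by
    ext ψ
    simp only [Wi, Set.mem_ofPred_eq, Set.mem_inter_iff, and_assoc]
  rw [h1]
  refine (hS.inter ?_).inter ?_
  · exact measurableSet_le measurable_const (measurable_pi_apply p)
  · exact measurableSet_lt (measurable_pi_apply p) measurable_const

/-- Invariance of the volume under the addition of constants. -/
theorem vol_shift (c : ℝ) (T : Set (Tor d n → ℝ)) :
    volume {ψ : Tor d n → ℝ | (fun v => ψ v + c) ∈ T} = volume T := by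
  have h := measure_preimage_add_right (volume : Measure (Tor d n → ℝ)) (fun _ => c) T
  rw [← h]
  rfl

theorem Wi_shift {S : Set (Tor d n → ℝ)}
    (hS : ∀ (ψ : Tor d n → ℝ) (c : ℝ), (fun v => ψ v + c) ∈ S ↔ ψ ∈ S) (p q : Tor d n)
    (a b c : ℝ) :
    volume (Wi S p (a + c) ∩ Wi S q (b + c)) = volume (Wi S p a ∩ Wi S q b) := by
  rw [← vol_shift c (Wi S p (a + c) ∩ Wi S q (b + c))]
  congr 1
  ext ψ
  simp only [Wi, Set.mem_ofPred_eq, Set.mem_inter_iff, hS]
  constructor
  · rintro ⟨⟨h1, h2, h3⟩, h4, h5, h6⟩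
    exact ⟨⟨h1, by linarith, by linarith⟩, h4, by linarith, by linarith⟩
  · rintro ⟨⟨h1, h2, h3⟩, h4, h5, h6⟩
    exact ⟨⟨h1, by linarith, by linarith⟩, h4, by linarith, by linarith⟩

theorem Wi_shift1 {S : Set (Tor d n → ℝ)}
    (hS : ∀ (ψ : Tor d n → ℝ) (c : ℝ), (fun v => ψ v + c) ∈ S ↔ ψ ∈ S) (p : Tor d n)
    (a c : ℝ) : volume (Wi S p (a + c)) = volume (Wi S p a) := by
  have h := Wi_shift hS p p a a c
  rwa [Set.inter_self, Set.inter_self] at h

/-- The windows starting at the integers. -/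
theorem Wi_union (S T : Set (Tor d n → ℝ)) (hS : MeasurableSet S) (hT : MeasurableSet T)
    (hTS : T ⊆ S) (p : Tor d n) :
    volume T = ∑' l : ℤ, volume (T ∩ Wi S p (l : ℝ)) := by
  rw [← measure_iUnion]
  · congr 1
    ext ψ
    simp only [Set.mem_iUnion, Set.mem_inter_iff, Wi, Set.mem_ofPred_eq]
    constructor
    · intro h
      exact ⟨⌊ψ p⌋, h, hTS h, Int.floor_le _, Int.lt_floor_add_one _⟩
    · rintro ⟨_, h, _⟩
      exact h
  · intro l l' hne
    rw [Function.onFun, Set.disjoint_left]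
    rintro ψ ⟨_, _, h1, h2⟩ ⟨_, _, h3, h4⟩
    apply hne
    have h5 : (l : ℝ) < l' + 1 := by linarith
    have h6 : (l' : ℝ) < l + 1 := by linarith
    have h7 : l < l' + 1 := by exact_mod_cast h5
    have h8 : l' < l + 1 := by exact_mod_cast h6
    omega
  · intro l
    exact hT.inter (Wi_meas hS p l)

/-- The volume of the window does not depend on the vertex. -/
theorem Wi_pin {S : Set (Tor d n → ℝ)} (hSm : MeasurableSet S)
    (hS : ∀ (ψ : Tor d n → ℝ) (c : ℝ), (fun v => ψ v + c) ∈ S ↔ ψ ∈ S) (p q : Tor d n) :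
    volume (Wi S p 0) = volume (Wi S q 0) := by
  rw [Wi_union S (Wi S p 0) hSm (Wi_meas hSm p 0) (fun ψ h => h.1) q,
    Wi_union S (Wi S q 0) hSm (Wi_meas hSm q 0) (fun ψ h => h.1) p,
    ← (Equiv.neg ℤ).tsum_eq (fun l : ℤ => volume (Wi S q 0 ∩ Wi S p (l : ℝ)))]
  refine tsum_congr fun l => ?_
  have h := Wi_shift hS p q 0 l (-l)
  rw [zero_add, add_neg_cancel] at h
  rw [← h, Set.inter_comm]
  simp

/-- Closed windows. -/
theorem closed_win {S : Set (Tor d n → ℝ)} (p : Tor d n) (a : ℝ) :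
    volume {ψ : Tor d n → ℝ | ψ ∈ S ∧ a ≤ ψ p ∧ ψ p ≤ a + 1} = volume (Wi S p a) := by
  apply le_antisymm
  · have h1 : {ψ : Tor d n → ℝ | ψ ∈ S ∧ a ≤ ψ p ∧ ψ p ≤ a + 1} ⊆
        Wi S p a ∪ {ψ | ψ p = a + 1} := by
      rintro ψ ⟨h2, h3, h4⟩
      rcases h4.lt_or_eq with h5 | h5
      · exact Or.inl ⟨h2, h3, h5⟩
      · exact Or.inr h5
    have h2 : volume {ψ : Tor d n → ℝ | ψ p = a + 1} = 0 :=
      Measure.pi_hyperplane (fun _ => (volume : Measure ℝ)) p (a + 1)
    calc volume {ψ : Tor d n → ℝ | ψ ∈ S ∧ a ≤ ψ p ∧ ψ p ≤ a + 1}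
        ≤ volume (Wi S p a ∪ {ψ | ψ p = a + 1}) := measure_mono h1
      _ ≤ volume (Wi S p a) + volume {ψ : Tor d n → ℝ | ψ p = a + 1} := measure_union_le _ _
      _ = volume (Wi S p a) := by rw [h2, add_zero]
  · exact measure_mono fun ψ h => ⟨h.1, h.2.1, h.2.2.le⟩

/-- The Lipschitz functions along a coordinate. -/
theorem lip_line {ψ : Tor d n → ℝ} (h : Lip ψ) (x : Tor d n) (i : Fin d) (k : ℕ) :
    |ψ (x + Pi.single i (k : ZMod (2 * n + 2))) - ψ x| ≤ k := by
  induction k with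
  | zero => simp
  | succ k ih =>
    have h1 := h (x + Pi.single i (k : ZMod (2 * n + 2))) i
    have h2 : x + Pi.single i ((k + 1 : ℕ) : ZMod (2 * n + 2)) =
        x + Pi.single i (k : ZMod (2 * n + 2)) + Pi.single i 1 := by
      rw [add_assoc, ← Pi.single_add]
      push_cast
      rfl
    rw [h2]
    calc |ψ (x + Pi.single i (k : ZMod (2 * n + 2)) + Pi.single i 1) - ψ x|
        = |(ψ (x + Pi.single i (k : ZMod (2 * n + 2)) + Pi.single i 1) -
            ψ (x + Pi.single i (k : ZMod (2 * n + 2)))) +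
            (ψ (x + Pi.single i (k : ZMod (2 * n + 2))) - ψ x)| := by
          congr 1
          ring
      _ ≤ 1 + k := (abs_add_le _ _).trans (add_le_add h1 ih)
      _ = ((k + 1 : ℕ) : ℝ) := by push_cast; ring

theorem lip_dist {ψ : Tor d n → ℝ} (h : Lip ψ) (p v : Tor d n) :
    |ψ v - ψ p| ≤ ∑ i : Fin d, (((v i - p i).val : ℕ) : ℝ) := by
  have h1 : ∀ s : Finset (Fin d),
      |ψ (p + ∑ i ∈ s, Pi.single i (v i - p i)) - ψ p| ≤
        ∑ i ∈ s, (((v i - p i).val : ℕ) : ℝ) := by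
    classical
    intro s
    induction s using Finset.induction_on with
    | empty => simp
    | insert a s ha ih =>
      rw [Finset.sum_insert ha, Finset.sum_insert ha]
      have h2 : p + (Pi.single a (v a - p a) + ∑ i ∈ s, Pi.single i (v i - p i)) =
          (p + ∑ i ∈ s, Pi.single i (v i - p i)) +
            Pi.single a (((v a - p a).val : ℕ) : ZMod (2 * n + 2)) := by
        rw [ZMod.natCast_zmod_val]
        abel
      rw [h2]
      have h3 := lip_line h (p + ∑ i ∈ s, Pi.single i (v i - p i)) a (v a - p a).val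
      have h4 := abs_sub_le
        (ψ ((p + ∑ i ∈ s, Pi.single i (v i - p i)) +
            Pi.single a (((v a - p a).val : ℕ) : ZMod (2 * n + 2))))
        (ψ (p + ∑ i ∈ s, Pi.single i (v i - p i))) (ψ p)
      linarith
  have h2 := h1 Finset.univ
  have h3 : p + ∑ i : Fin d, Pi.single i (v i - p i) = v := by
    have h4 : ∑ i : Fin d, Pi.single i (v i - p i) = v - p :=
      Finset.univ_sum_single (v - p)
    rw [h4]
    abel
  rwa [h3] at h2

end lipm

theorem t_PIN : S_PIN := by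
  intro d n
  refine ⟨?_, ?_⟩
  · intro E hE hinv
    have hE' : ∀ (ψ : Tor d n → ℝ) (c : ℝ), (fun v => ψ v + c) ∈ E ↔ ψ ∈ E := by
      intro ψ c
      constructor
      · intro h
        have h1 := hinv _ h (-c)
        have h2 : (fun v => (fun v => ψ v + c) v + -c) = ψ := by
          funext v
          simp
        rwa [h2] at h1
      · intro h
        exact hinv ψ h c
    set S : Set (Tor d n → ℝ) := {ψ | Lip ψ ∧ ψ ∈ E} with hS
    have hSm : MeasurableSet S := (lip_meas d n).inter hE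
    have hSi : ∀ (ψ : Tor d n → ℝ) (c : ℝ), (fun v => ψ v + c) ∈ S ↔ ψ ∈ S := by
      intro ψ c
      simp only [hS, Set.mem_ofPred_eq, lip_add, hE']
    have hvl : ∀ p : Tor d n, vl p E = volume (Wi S p 0) := by
      intro p
      have h1 : {ψ : Tor d n → ℝ | Lip ψ ∧ |ψ p| ≤ 1 / 2 ∧ ψ ∈ E} =
          {ψ : Tor d n → ℝ | ψ ∈ S ∧ -(1 / 2) ≤ ψ p ∧ ψ p ≤ -(1 / 2) + 1} := by
        ext ψ
        simp only [hS, Set.mem_ofPred_eq, abs_le]
        constructor
        · rintro ⟨h1, ⟨h2, h3⟩, h4⟩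
          exact ⟨⟨h1, h4⟩, h2, by linarith⟩
        · rintro ⟨⟨h1, h4⟩, h2, h3⟩
          exact ⟨h1, ⟨h2, by linarith⟩, h4⟩
      have h2 := Wi_shift1 hSi p 0 (-(1 / 2))
      rw [zero_add] at h2
      rw [vl, h1, closed_win, h2]
    refine ⟨fun p q => ?_, ?_⟩
    · rw [hvl, hvl]
      exact Wi_pin hSm hSi p q
    · rw [hvl, ← closed_win (S := S) 0 0]
      congr 1
      ext ψ
      simp only [hS, Set.mem_ofPred_eq, zero_add]
      tauto
  · intro p
    constructor
    · have h1 : (Set.univ.pi fun _ : Tor d n => Set.Ioo (-(1 / 2) : ℝ) (1 / 2)) ⊆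
          {ψ : Tor d n → ℝ | Lip ψ ∧ |ψ p| ≤ 1 / 2 ∧ ψ ∈ Set.univ} := by
        intro ψ hψ
        have h2 : ∀ v, -(1 / 2) < ψ v ∧ ψ v < 1 / 2 := fun v => hψ v (Set.mem_univ v)
        refine ⟨fun x i => ?_, ?_, Set.mem_univ _⟩
        · have h3 := h2 x
          have h4 := h2 (x + Pi.single i 1)
          rw [abs_le]
          constructor <;> linarith
        · have h3 := h2 p
          rw [abs_le]
          constructor <;> linarith
      have h2 : volume (Set.univ.pi fun _ : Tor d n => Set.Ioo (-(1 / 2) : ℝ) (1 / 2)) = 1 := by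
        rw [volume_pi_pi]
        have h3 : ∀ v : Tor d n, (volume : Measure ℝ) (Set.Ioo (-(1 / 2) : ℝ) (1 / 2)) = 1 := by
          intro v
          rw [Real.volume_Ioo]
          norm_num
        rw [Finset.prod_congr rfl fun v _ => h3 v, Finset.prod_const_one]
      have h3 := measure_mono (μ := volume) h1
      rw [h2] at h3
      intro h4
      rw [vl] at h4
      rw [h4] at h3
      exact absurd h3 (by simp)
    · have h1 : {ψ : Tor d n → ℝ | Lip ψ ∧ |ψ p| ≤ 1 / 2 ∧ ψ ∈ Set.univ} ⊆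
          Metric.closedBall 0 ((d : ℝ) * (2 * n + 2) + 1 / 2) := by
        rintro ψ ⟨h2, h3, _⟩
        rw [mem_closedBall_zero_iff, pi_norm_le_iff_of_nonneg (by positivity)]
        intro v
        have h4 := lip_dist h2 p v
        have h5 : ∑ i : Fin d, (((v i - p i).val : ℕ) : ℝ) ≤ (d : ℝ) * (2 * n + 2) := by
          have h6 : ∀ i ∈ (Finset.univ : Finset (Fin d)),
              (((v i - p i).val : ℕ) : ℝ) ≤ 2 * n + 2 := by
            intro i _
            have h7 := (ZMod.val_lt (v i - p i)).le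
            exact_mod_cast h7
          have h8 := Finset.sum_le_card_nsmul _ _ _ h6
          rw [Finset.card_univ, Fintype.card_fin, nsmul_eq_mul] at h8
          exact h8
        have h6 : |ψ v| ≤ |ψ v - ψ p| + |ψ p| := by
          have h7 := abs_add_le (ψ v - ψ p) (ψ p)
          rwa [sub_add_cancel] at h7
        rw [Real.norm_eq_abs]
        linarith
      exact ne_top_of_le_ne_top (measure_closedBall_lt_top).ne (measure_mono h1)

end Pool.Agent.H264.LF
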